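import Mathlib

namespace Pool.Agent.Results.MP_a93e77_co.NotStronglyRegular

/-- `P` is an isomorphism-permutation of `G`: for distinct `u, v`, `uv` is an edge iff
`P u P v` is not an edge. -/
def IsoPerm {V : Type} (G : SimpleGraph V) (P : Equiv.Perm V) : Prop :=
  ∀ u v : V, u ≠ v → (G.Adj u v ↔ ¬ G.Adj (P u) (P v))

/-- `G` is self-complementary: it is isomorphic to its complement. -/
def SelfComplementary {V : Type} (G : SimpleGraph V) : Prop := Nonempty (G ≃g Gᶜ)

/-- vertices fixed by at least one isomorphism-permutation -/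
def F {V : Type} (G : SimpleGraph V) : Set V := {v | ∃ P, IsoPerm G P ∧ P v = v}

/-- edges `uv` such that some isomorphism-permutation has `u` and `v` consecutive in a cycle -/
def N {V : Type} (G : SimpleGraph V) : Set (Sym2 V) :=
  {e | ∃ u v, e = s(u, v) ∧ G.Adj u v ∧ ∃ P, IsoPerm G P ∧ (P u = v ∨ P v = u)}

/-- every vertex has the same number of neighbours -/
def Regular {V : Type} (G : SimpleGraph V) : Prop :=
  ∃ d : ℕ, ∀ v, (G.neighborSet v).ncard = d

/-- `G` is regular, all edges lie in the same number of triangles, and all pairs of distinct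
nonadjacent vertices have the same number of common neighbours -/
def StronglyRegular {V : Type} (G : SimpleGraph V) : Prop :=
  Regular G ∧
  (∃ l : ℕ, ∀ u v, G.Adj u v → {w | G.Adj u w ∧ G.Adj v w}.ncard = l) ∧
  (∃ m : ℕ, ∀ u v, u ≠ v → ¬ G.Adj u v → {w | G.Adj u w ∧ G.Adj v w}.ncard = m)

/-- the circulant graph on the integers modulo `13` with connection set `±1, ±2, ±4` -/
def C13 : SimpleGraph (ZMod 13) where
  Adj x y := x - y = 1 ∨ x - y = 2 ∨ x - y = 4 ∨ x - y = 9 ∨ x - y = 11 ∨ x - y = 12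
  symm := ⟨by decide +kernel⟩
  loopless := ⟨by decide +kernel⟩

instance : DecidableRel C13.Adj := fun x y => by unfold C13; infer_instance

/-- the permutation `x ↦ 8 x + c` -/
def mulPerm (c : ZMod 13) : Equiv.Perm (ZMod 13) where
  toFun x := 8 * x + c
  invFun x := 5 * (x - c)
  left_inv x := by
    have : (5 : ZMod 13) * 8 = 1 := by decide
    calc (5 : ZMod 13) * (8 * x + c - c) = (5 * 8) * x := by ring
      _ = x := by rw [this, one_mul]
  right_inv x := by
    have : (8 : ZMod 13) * 5 = 1 := by decide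
    calc (8 : ZMod 13) * (5 * (x - c)) + c = (8 * 5) * (x - c) + c := by ring
      _ = x := by rw [this]; ring

lemma isoPerm_mulPerm : ∀ c : ZMod 13, IsoPerm C13 (mulPerm c) := by
  intro c u v
  have key : ∀ u v : ZMod 13, u ≠ v → (C13.Adj u v ↔ ¬ C13.Adj (8 * u) (8 * v)) := by
    decide +kernel
  have h2 : C13.Adj (mulPerm c u) (mulPerm c v) ↔ C13.Adj (8 * u) (8 * v) := by
    have : (8 * u + c) - (8 * v + c) = 8 * u - 8 * v := by ring
    simp only [C13, mulPerm, Equiv.coe_fn_mk, this]
  intro h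
  rw [h2]
  exact key u v h

lemma selfComplementary_C13 : SelfComplementary C13 := by
  refine ⟨⟨mulPerm 0, ?_⟩⟩
  intro a b
  by_cases hab : a = b
  · subst hab
    simp
  · have h := isoPerm_mulPerm 0 a b hab
    rw [SimpleGraph.compl_adj, h]
    simp [hab]

lemma F_C13 : F C13 = Set.univ := by
  ext v
  simp only [F, Set.mem_univ, iff_true]
  refine ⟨mulPerm (v - 8 * v), isoPerm_mulPerm _, ?_⟩
  simp [mulPerm]

lemma N_C13 : N C13 = C13.edgeSet := by
  ext e
  constructor
  · rintro ⟨u, v, rfl, h, _⟩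
    exact h
  · induction e with
    | _ u v =>
      intro h
      exact ⟨u, v, rfl, h, mulPerm (v - 8 * u), isoPerm_mulPerm _, Or.inl (by simp [mulPerm])⟩

lemma regular_C13 : ∀ v, (C13.neighborSet v).ncard = 6 := by
  intro v
  have h : C13.neighborSet v = ((Finset.univ.filter (fun w => C13.Adj v w) : Finset (ZMod 13)) : Set (ZMod 13)) := by
    ext w
    simp
  rw [h, Set.ncard_coe_finset]
  clear h
  revert v
  decide +kernel

lemma common (u v : ZMod 13) : {w | C13.Adj u w ∧ C13.Adj v w}.ncard =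
    (Finset.univ.filter (fun w => C13.Adj u w ∧ C13.Adj v w)).card := by
  rw [← Set.ncard_coe_finset]
  congr 1
  ext w
  simp

lemma not_stronglyRegular_C13 : ¬ StronglyRegular C13 := by
  rintro ⟨_, ⟨l, hl⟩, _⟩
  have h1 := hl 0 1 (by decide +kernel)
  have h2 := hl 0 2 (by decide +kernel)
  rw [common] at h1 h2
  have h3 : (Finset.univ.filter (fun w => C13.Adj 0 w ∧ C13.Adj 1 w)).card = 2 := by
    decide +kernel
  have h4 : (Finset.univ.filter (fun w => C13.Adj 0 w ∧ C13.Adj 2 w)).card = 3 := by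
    decide +kernel
  omega

/-- There is a regular self-complementary graph (on 13 vertices) with `F(G) = V(G)` and
`N(G) = E(G)` that is not strongly regular. -/
theorem result :
    (∃ G : SimpleGraph (Fin 13), Regular G ∧ SelfComplementary G ∧ F G = Set.univ ∧
      N G = G.edgeSet ∧ ¬ StronglyRegular G) ∧
    ¬ ∀ (n : ℕ) (G : SimpleGraph (Fin n)), Regular G → SelfComplementary G →
      (StronglyRegular G ↔ F G = Set.univ ∧ N G = G.edgeSet) := by
  have h : ∃ G : SimpleGraph (Fin 13), Regular G ∧ SelfComplementary G ∧ F G = Set.univ ∧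
      N G = G.edgeSet ∧ ¬ StronglyRegular G :=
    ⟨C13, ⟨6, regular_C13⟩, selfComplementary_C13, F_C13, N_C13, not_stronglyRegular_C13⟩
  refine ⟨h, ?_⟩
  obtain ⟨G, h1, h2, h3, h4, h5⟩ := h
  intro hall
  exact h5 ((hall 13 G h1 h2).2 ⟨h3, h4⟩)

end Pool.Agent.Results.MP_a93e77_co.NotStronglyRegular
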